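import Pool.Agent.PDN.Stmts

/-!
# PDN, row COL: a triangulation of the sphere with even degrees has a three colouring
-/

set_option autoImplicit false

namespace Pool.Agent.PDN.H19

theorem z2_neg : ∀ x y : ZMod 2, (1 : ZMod 2) = x - y → (x = 0 ↔ ¬ y = 0) := by decide

theorem z2_a : (1 : ZMod 2) = -1 := by decide

theorem z2_two : ∀ z : ZMod 2, z + z = 0 := by decide

theorem z3_b : (1 : ZMod 3) = - -1 := by decide

theorem z3_three : ∀ x : ZMod 3, x + x + x = 0 := by decide

theorem z3_one : (1 : ZMod 3) ≠ 0 := by decide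

theorem z3_neg_one : (-1 : ZMod 3) ≠ 0 := by decide

open Classical in
theorem col (exa : ExaStmt) : ColStmt := by
  intro V hV T hc ht he
  have h2 : Fact (Nat.Prime 2) := Nat.fact_prime_two
  have h3 : Fact (Nat.Prime 3) := Nat.fact_prime_three
  obtain ⟨-, hex2⟩ := exa (ZMod 2) V T hc ht
  obtain ⟨hex3, -⟩ := exa (ZMod 3) V T hc ht
  obtain ⟨s, hsf, hs1⟩ := hex2 (fun _ _ => 1) (fun _ _ _ => z2_a) (by
    intro u
    rw [Finset.sum_ite, Finset.sum_const_zero, add_zero, Finset.sum_const, nsmul_eq_mul, mul_one]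
    have hcard : (Finset.univ.filter (fun v => T.Adj u v)).card = T.deg u := by
      unfold Tri.deg
      rw [Nat.card_eq_fintype_card, Fintype.card_subtype]
    rw [hcard]
    obtain ⟨k, hk⟩ := he u
    rw [hk]
    push_cast
    exact z2_two _)
  obtain ⟨x, hx⟩ := hex3 (fun u v => if s u v = 0 then 1 else -1) (by
    intro u v huv
    have h := z2_neg _ _ (hs1 u v huv)
    by_cases h0 : s v u = 0
    · have h1 : ¬ s u v = 0 := fun hh => (h.1 hh) h0
      simp only [h0, h1, if_true, if_false]
      exact z3_b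
    · have h1 : s u v = 0 := h.2 h0
      simp only [h0, h1, if_true, if_false]) (by
    intro u v w hf
    have h1 := hsf u v w hf
    have h2 := hsf v w u (T.cyc hf)
    simp only [h1, h2]
    exact z3_three _)
  refine ⟨x, fun u v huv hxe => ?_⟩
  have h := hx u v huv
  rw [hxe, sub_self] at h
  by_cases h0 : s u v = 0
  · simp only [h0, if_true] at h
    exact z3_one h
  · simp only [h0, if_false] at h
    exact z3_neg_one h

end Pool.Agent.PDN.H19
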